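import Mathlib
import Pool.Agent.Lib.MP_7385e8_ag.Groth
import Pool.Agent.Lib.MP_7385e8_ag.RingR

/-!
Tor-rigidity fails over local complete intersections: over every field `K` there is an artinian
local complete intersection `R` with residue field `K` and finitely generated (hence finite length)
modules `M`, `N` with `Tor_1(M, N) = 0` and `Tor_2(M, N) ≠ 0`.
-/

universe u

open Pool.Agent.Lib.MP_7385e8_ag

namespace Pool.Agent.Results.MP_7385e8_ag.NotTorRigid

lemma isLocalCI (K : Type u) [Field K] : IsLocalCompleteIntersection (R6 K) where
  isNoetherianRing := inferInstance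
  exists_presentation := by
    refine ⟨S6 K, inferInstance, inferInstance, rels K, isRegular_rels K, ⟨?_⟩⟩
    exact ((AdicCompletion.ofAlgEquiv (IsLocalRing.maximalIdeal (R6 K))).symm.toRingEquiv).trans
      (quotEquiv K).symm

lemma residue_bijective (K : Type u) [Field K] :
    Function.Bijective (algebraMap K (IsLocalRing.ResidueField (R6 K))) := by
  refine ⟨(algebraMap K (IsLocalRing.ResidueField (R6 K))).injective, fun x => ?_⟩
  obtain ⟨y, rfl⟩ := IsLocalRing.residue_surjective x
  refine ⟨augR K y, ?_⟩
  have h : (algebraMap K (R6 K) (augR K y)) - y ∈ IsLocalRing.maximalIdeal (R6 K) := by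
    rw [mem_maximalIdeal_iff, map_sub]
    have : augR K (algebraMap K (R6 K) (augR K y)) = augR K y := by
      change augR K (Ideal.Quotient.mk (I6 K) (MvPolynomial.C (augR K y))) = _
      rw [augR_mk, MvPolynomial.constantCoeff_C]
    rw [this, sub_self]
  have h2 : IsLocalRing.residue (R6 K) (algebraMap K (R6 K) (augR K y)) =
      IsLocalRing.residue (R6 K) y := Ideal.Quotient.eq.2 h
  rw [← h2]
  rfl

/-- For every field `K` there are an artinian local complete intersection `R` (a `K`-algebra with
residue field `K`) and finitely generated `R`-modules `M`, `N`, with `M` locally free of constant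
rank on the punctured spectrum and `[N] = 0` in the reduced Grothendieck group of `R` tensored
with `ℚ`, such that `Tor_1^R(M, N) = 0` but `Tor_2^R(M, N) ≠ 0`. -/
theorem result (K : Type u) [Field K] :
    ∃ (R : Type u) (_ : CommRing R) (_ : IsLocalRing R) (_ : Algebra K R)
      (M N : Type u) (_ : AddCommGroup M) (_ : Module R M) (_ : AddCommGroup N) (_ : Module R N)
      (_ : Module.Finite R M) (_ : Module.Finite R N),
      IsLocalCompleteIntersection R ∧ IsArtinianRing R ∧
      Function.Bijective (algebraMap K (IsLocalRing.ResidueField R)) ∧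
      IsLocallyFreeOnPuncturedSpectrum R M ∧ ReducedClassVanishes R N ∧
      TorVanishes R M N 1 ∧ ¬ TorVanishes R M N 2 :=
  ⟨R6 K, inferInstance, inferInstance, inferInstance, WMod K, R6 K ⧸ I2 (ru K) (rv K),
    inferInstance, inferInstance, inferInstance, inferInstance, inferInstance, inferInstance,
    isLocalCI K, inferInstance, residue_bijective K, isLocallyFree_of_isArtinianRing _,
    reducedClassQ_eq_zero _, tor_one_W K, tor_two_W K⟩

end Pool.Agent.Results.MP_7385e8_ag.NotTorRigid
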